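import Pool.Agent.H480.Q7

set_option autoImplicit false

/-!
# MP_07318d_nt: the moment polynomials as the extreme case of local rank

Let `k > 0` be real and `M (T) = ∫_0^T |ζ(1/2 + it)|^(2k) dt`. For `σ` real and an integer `r ≥ 0` say that `M` has rank at most `r` at
the exponent `σ` if for every `ε > 0` and each large `X` there are functions `u_i, v_i`, which may depend on `X` in any way, with
`|M (X x y) - ∑_{i ≤ r} u_i (x) v_i (y)| ≤ X^(σ + ε)` for `1 ≤ x ≤ A`, `1 ≤ y ≤ A'`.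

* `M` has rank at most `r` at the exponent `σ` if and only if `M (T) = ∑_{j ≤ r} c_j T^(ρ_j) (log T)^(m_j) + O (T^(σ + ε))` for all `ε > 0`,
  where `m_j` is the number of `i > j` with `ρ_i = ρ_j`.
* If `σ < 1` and `M (T) ≪ T^(1 + ε)` for all `ε`, the rank is at least `k² + 1`.
* Let `σ < 1` and let `d = k²` be an integer. There is a polynomial `P` of degree `d` with
  `M (T) = ∫_0^T P (log (t / 2π)) dt + O (T^(σ + ε))` for all `ε > 0` if and only if `M (T) ≪ T^(1 + ε)` for all `ε` and the rank of `M` at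
  the exponent `σ` is at most `d + 1`.
-/

open Complex Filter Set MeasureTheory Topology Polynomial

namespace Pool.Agent.Results.MP_07318d_nt.LocalRank

noncomputable section

/-- `M (T) = ∫_0^T |ζ(1/2 + it)|^(2k) dt`. -/
def M (k T : ℝ) : ℝ := ∫ t in Icc 0 T, ‖riemannZeta (1 / 2 + t * I)‖ ^ (2 * k)

/-- For every `ε > 0` and each large `X` the function `M (X x y)` is on `[1, A] × [1, A']` within `X ^ (σ + ε)` of a sum of `r` products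
`u_i (x) v_i (y)`. -/
def Rank (k A A' : ℝ) (r : ℕ) (σ : ℝ) : Prop :=
  ∀ ε : ℝ, 0 < ε → ∀ᶠ X : ℝ in atTop, ∃ u v : Fin r → ℝ → ℂ, ∀ x ∈ Icc 1 A, ∀ y ∈ Icc 1 A',
    ‖(M k (X * x * y) : ℂ) - ∑ i, u i x * v i y‖ ≤ X ^ (σ + ε)

/-- The number of `i > j` with `ρ_i = ρ_j`. -/
def m {r : ℕ} (ρ : Fin r → ℂ) (j : Fin r) : ℕ := (Finset.univ.filter fun i => j < i ∧ ρ i = ρ j).card

/-- `M (T) = ∑_{j ≤ r} c_j T^(ρ_j) (log T)^(m_j) + O (T^(σ + ε))` for all `ε > 0`. -/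
def Expansion (k : ℝ) (r : ℕ) (σ : ℝ) : Prop :=
  ∃ ρ c : Fin r → ℂ, ∀ ε : ℝ, 0 < ε → ∃ K : ℝ, ∀ T : ℝ, 1 ≤ T →
    ‖(M k T : ℂ) - ∑ j, c j * ((Real.log T : ℂ) ^ m ρ j * (T : ℂ) ^ ρ j)‖ ≤ K * T ^ (σ + ε)

/-- `M (T) = ∫_0^T P (log (t / 2π)) dt + O (T^(σ + ε))` for all `ε > 0`. -/
def Formula (k : ℝ) (P : ℝ[X]) (σ : ℝ) : Prop :=
  ∀ ε : ℝ, 0 < ε → ∃ K : ℝ, ∀ T : ℝ, 1 ≤ T →
    |M k T - ∫ t in (0:ℝ)..T, P.eval (Real.log (t / (2 * Real.pi)))| ≤ K * T ^ (σ + ε)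

/-- `M (T) ≪ T^(1 + ε)` for all `ε > 0`. -/
def Lindelof (k : ℝ) : Prop := ∀ ε : ℝ, 0 < ε → ∃ K : ℝ, ∀ T : ℝ, 1 ≤ T → M k T ≤ K * T ^ (1 + ε)

theorem rank_eq {k A A' : ℝ} {r : ℕ} {σ : ℝ} : Rank k A A' r σ ↔
    ∀ β' : ℝ, σ < β' → ∀ᶠ X : ℝ in atTop, H480.K.NearSup (fun x => ((H480.Q.Mk k x : ℝ) : ℂ)) A A' r β' X := by
  constructor
  · intro h β' hβ'
    have h1 := h (β' - σ) (by linarith)
    rw [add_sub_cancel] at h1
    exact h1
  · intro h ε hε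
    exact h (σ + ε) (by linarith)

theorem lind_eq {k : ℝ} : Lindelof k ↔ ∀ σ : ℝ, 1 < σ → ∃ K : ℝ, ∀ x : ℝ, 1 ≤ x → H480.Q.Mk k x ≤ K * x ^ σ := by
  constructor
  · intro h σ hσ
    have h1 := h (σ - 1) (by linarith)
    rw [add_sub_cancel] at h1
    exact h1
  · intro h ε hε
    exact h (1 + ε) (by linarith)

theorem formula_eq {k σ : ℝ} {P Q : ℝ[X]}
    (h : ∀ T : ℝ, 0 < T → ∫ t in (0:ℝ)..T, P.eval (Real.log (t / (2 * Real.pi))) = T * Q.eval (Real.log T)) :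
    Formula k P σ ↔ H480.Q.IsPoly (H480.Q.Mk k) σ Q := by
  constructor
  · intro h1 β' hβ'
    obtain ⟨K, hK⟩ := h1 (β' - σ) (by linarith)
    rw [add_sub_cancel] at hK
    refine ⟨K, fun x hx => ?_⟩
    have h2 := hK x hx
    rw [h x (by linarith)] at h2
    exact h2
  · intro h1 ε hε
    obtain ⟨K, hK⟩ := h1 (σ + ε) (by linarith)
    refine ⟨K, fun x hx => ?_⟩
    rw [h x (by linarith)]
    exact hK x hx

theorem result (k : ℝ) (hk : 0 < k) (A A' : ℝ) (hA : 1 < A) (hA' : 1 < A') (σ : ℝ) :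
    (∀ r : ℕ, Rank k A A' r σ ↔ Expansion k r σ) ∧
    (σ < 1 → Lindelof k → ∀ r : ℕ, Rank k A A' r σ → k ^ 2 + 1 ≤ (r : ℝ)) ∧
    (σ < 1 → ∀ d : ℕ, (d : ℝ) = k ^ 2 →
      ((∃ P : ℝ[X], P.degree = d ∧ Formula k P σ) ↔ (Lindelof k ∧ Rank k A A' (d + 1) σ))) := by
  have hmono := H480.Q.Mk_mono hk
  have hSm : Measurable (H480.Q.Mk k) := hmono.measurable
  have hSc : {x : ℝ | ¬ ContinuousAt (fun x => ((H480.Q.Mk k x : ℝ) : ℂ)) x}.Countable := by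
    refine hmono.countable_not_continuousAt.mono fun x hx => ?_
    have hx1 : ¬ ContinuousAt (fun x => ((H480.Q.Mk k x : ℝ) : ℂ)) x := hx
    show ¬ ContinuousAt (H480.Q.Mk k) x
    intro hx'
    exact hx1 (ContinuousAt.comp (g := fun y : ℝ => (y : ℂ)) Complex.continuous_ofReal.continuousAt hx')
  have hSm' : Measurable (fun x => ((H480.Q.Mk k x : ℝ) : ℂ)) := Complex.measurable_ofReal.comp hSm
  obtain ⟨c, hc, hlow⟩ := H480.Q.Mk_lower hk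
  refine ⟨fun r => ?_, fun hσ hL r hr => ?_, fun hσ d hd => ?_⟩
  · rw [rank_eq, H480.Q.rank_iff hSm' hSc (C := 54 ^ (2 * k)) (κ := 4 * k + 1) (by positivity)
      (fun x hx => by rw [H480.Q.real_norm (H480.Q.Mk_nonneg k)]; exact H480.Q.Mk_le hk hx) hA hA' σ]
    constructor
    · rintro ⟨ρ, a, h⟩
      exact ⟨ρ, a, fun ε hε => h (σ + ε) (by linarith)⟩
    · rintro ⟨ρ, a, h⟩
      refine ⟨ρ, a, fun β' hβ' => ?_⟩
      have h1 := h (β' - σ) (by linarith)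
      rw [add_sub_cancel] at h1
      exact h1
  · classical
    obtain ⟨ρ, a, h1, -⟩ := H480.Q.expansion_real hSm hSc (H480.Q.Mk_nonneg k) hA hA' hσ (lind_eq.1 hL) hc (sq_nonneg k) hlow
      (rank_eq.1 hr)
    refine h1.trans ?_
    have h2 := Finset.card_le_univ (Finset.univ.filter fun j => ρ j = 1)
    rw [Fintype.card_fin] at h2
    exact_mod_cast h2
  · have h1 := H480.Q.poly_iff hSm hSc (H480.Q.Mk_nonneg k) hA hA' hσ d
    rw [lind_eq, rank_eq]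
    constructor
    · rintro ⟨P, hP, hf⟩
      obtain ⟨Q, hQ, hPQ⟩ := H480.Q.Q_of_P P
      obtain ⟨h2, -, h3⟩ := h1.1 ⟨Q, by rw [hQ, hP], (formula_eq hPQ).1 hf⟩
      exact ⟨h2, h3⟩
    · rintro ⟨h2, h3⟩
      obtain ⟨Q, hQ, hf⟩ := h1.2 ⟨h2, ⟨c, hc, by
        filter_upwards [hlow] with x hx
        rw [← hd, Real.rpow_natCast] at hx
        exact hx⟩, h3⟩
      obtain ⟨P, hP, hPQ⟩ := H480.Q.P_of_Q Q
      exact ⟨P, by rw [hP, hQ], (formula_eq hPQ).2 hf⟩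

end

end Pool.Agent.Results.MP_07318d_nt.LocalRank
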