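import Pool.Agent.H471.ZP.Fix

set_option autoImplicit false

/-!
# MP_07318d_nt: even moments of all orders with square root remainder, along generic heights

For `j < k` let `1 ≤ η_j ≤ θ_j` be real, `m_j ≥ 0` integers, with `η_j < θ_j` or `m_j ≥ 1`, let
`0 ≤ y_j(t) ≪ t ^ {θ_j}` be ARBITRARY measurable functions of `t ≥ 2` and `w` an ARBITRARY measurable complex weight
with `∫_2^T |w| ² ≪ T ^ (κ + ε)` for every `ε > 0` (`κ = 1` for bounded weights, and for `ζ(1/2 + it) ²`).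
For almost all real `a_j > 0`, `b_j`, with

`u_j(t) = y_j(t) + a_j t ^ {θ_j} + b_j t ^ {η_j} / (log t) ^ {m_j}`,

`∫_{T_0}^T w(t) ∏_j |ζ(1/2 + i u_j(t))| ² dt = ∫_{T_0}^T w(t) ∏_j (log(u_j(t) / 2π) + 2γ) dt + O(T ^ (κ/2 + ε))`,

for every `ε > 0`. So the moment of order `2k` along such heights has an exact main term and the
remainder `O(T ^ (1/2 + ε))`, for every `k`, against every bounded weight (in particular over every
measurable set of `t`).

Proof. The product telescopes, one factor is replaced by its mean. The difference is a sum over reduced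
fractions `h / m ≠ 1` (smooth approximate functional equation); the correlation of `t` and `s` over
`(a_j, b_j)` is `≪ min(1, |t - s|⁻¹)` up to `t ^ ε`: the frequencies `A λ - B μ`, `A' λ - B' μ` (`λ, μ` logarithms of
reduced fractions, `A = t ^ θ`, `A' = t ^ η / (log t) ^ m`, `B`, `B'` the same at `s`) can not both be small, by the
monotonicity of `A / A'`, for `λ` or `μ` not very small, and the spacing of the fractions does the rest. The
factors which are not replaced are controlled by the fourth moment of zeta (over the parameters), the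
weight only enters through its mean square. Dyadic blocks and the lemma of Borel and Cantelli give the
result for almost all parameters. The approximate functional equation and the fourth moment are taken
from the library of the team.
-/

namespace Pool.Agent.Results.MP_07318d_nt.SquareRootGenericHeights

open Complex MeasureTheory Set

/-- the heights `u_j(t) = y_j(t) + a_j t ^ {θ_j} + b_j t ^ {η_j} / (log t) ^ {m_j}`, `c_j = (a_j, b_j)` -/
noncomputable def height {k : ℕ} (θ η : Fin k → ℝ) (m : Fin k → ℕ) (y : Fin k → ℝ → ℝ) (c : Fin k → ℝ × ℝ)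
    (j : Fin k) (t : ℝ) : ℝ :=
  y j t + (c j).1 * t ^ θ j + (c j).2 * (t ^ η j / Real.log t ^ m j)

/-- `∏_j |ζ(1/2 + i u_j(t))| ² - ∏_j (log(u_j(t) / 2π) + 2γ)` -/
noncomputable def diff {k : ℕ} (θ η : Fin k → ℝ) (m : Fin k → ℕ) (y : Fin k → ℝ → ℝ) (c : Fin k → ℝ × ℝ)
    (t : ℝ) : ℝ :=
  ∏ j, ‖riemannZeta (1 / 2 + I * height θ η m y c j t)‖ ^ 2 -
    ∏ j, (Real.log (height θ η m y c j t / (2 * Real.pi)) + 2 * Real.eulerMascheroniConstant)

/-- **all even moments, generic heights, square root remainder, arbitrary weights** -/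
theorem result {k : ℕ} (θ η : Fin k → ℝ) (m : Fin k → ℕ) (hη : ∀ j, 1 ≤ η j) (hηθ : ∀ j, η j ≤ θ j)
    (hm : ∀ j, η j < θ j ∨ 1 ≤ m j)
    (y : Fin k → ℝ → ℝ) (hym : ∀ j, Measurable (y j)) (Y : ℝ) (hy : ∀ j t, 2 ≤ t → 0 ≤ y j t ∧ y j t ≤ Y * t ^ θ j)
    (w : ℝ → ℂ) (hw : Measurable w) (κ : ℝ) (hκ : 0 ≤ κ)
    (hw2 : ∀ T, 2 ≤ T → IntegrableOn (fun t => ‖w t‖ ^ 2) (Ioc 2 T))
    (hwk : ∀ ε : ℝ, 0 < ε → ∃ C : ℝ, ∀ T, 2 ≤ T → ∫ t in (2:ℝ)..T, ‖w t‖ ^ 2 ≤ C * T ^ (κ + ε)) :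
    ∀ᵐ c : Fin k → ℝ × ℝ, (∀ j, 0 < (c j).1) → ∃ T0 : ℝ, 2 ≤ T0 ∧
      (∀ T : ℝ, T0 ≤ T → IntervalIntegrable (fun t => w t * (diff θ η m y c t : ℂ)) volume T0 T) ∧
      ∀ ε : ℝ, 0 < ε → ∃ K : ℝ, ∀ T : ℝ, T0 ≤ T →
        ‖∫ t in T0..T, w t * (diff θ η m y c t : ℂ)‖ ≤ K * T ^ (κ / 2 + ε) := by
  have h := Pool.Agent.H471.ZP.gen θ η θ m (fun j => lt_of_lt_of_le one_pos (hη j)) hηθ hm (fun j => le_rfl)
    y hym Y hy 1 le_rfl hη w hw κ hκ hw2 hwk
  filter_upwards [h] with c hc hj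
  have e1 : (fun t => w t * (diff θ η m y c t : ℂ)) = fun t => w t *
      (∏ j, (Pool.Agent.Y969.GP.ff (Pool.Agent.H471.ZP.hgt θ η m y c j t) : ℂ) -
        ∏ j, (Pool.Agent.H471.QP.LL (Pool.Agent.H471.ZP.hgt θ η m y c j t) : ℂ)) := by
    funext t
    unfold diff Pool.Agent.Y969.GP.ff Pool.Agent.H471.QP.LL Pool.Agent.H471.ZP.hgt height
    push_cast
    rfl
  have h2 := Pool.Agent.H471.ZP.fix (fun t => w t * (diff θ η m y c t : ℂ)) (κ / 2) (by linarith) (by
    intro ε hε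
    obtain ⟨T0, K, hT0, hK⟩ := hc hj ε hε
    refine ⟨T0, K, hT0, fun T hT => ?_⟩
    have h3 := hK T hT
    simp only [e1]
    have e2 : (∑ j, (θ j - θ j) + 1 - 1 + κ) / 2 + ε = κ / 2 + ε := by simp
    rw [e2] at h3
    exact h3)
  exact h2

end Pool.Agent.Results.MP_07318d_nt.SquareRootGenericHeights
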