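import Pool.Agent.H469.F4.UL8

set_option autoImplicit false

/-!
# MP_07318d_nt: zeta right of the line under the moment measures on the critical line

Let `0 < k < 2` be real. For a compact subset `K` of the strip `1/2 < Re z < 1` and a set `A` of functions let `S_ε` be the set of the
real `t` for which `z ↦ ζ(z + it)` is uniformly on `K` at distance less than `ε` from a member of `A`, and let
`M(P) = (log T)^(-k²) (1/T) ∫_{[0, T] ∩ P} |ζ(1/2 + it)|^(2k) dt`. Let `X_p = e(θ_p)` be independent, `θ_p` with density proportional to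
`|1 - e(θ) / √p|^(-2k)`, and let `P_z(ε)` be the probability that the Euler product `w ↦ ∏_{p ≤ z} (1 - p^(-w) / X_p)^(-1)` is uniformly
on `K` at distance less than `ε` from a member of `A`. With absolute constants `c, C > 0`, for all `δ < ε`, `η > 0`, all large `z` and
`T > T(z)`

`c P_z(δ) - η ≤ M(S_ε)`,  `M(S_δ) ≤ C P_z(ε) + η`.

For `A = {f}`, `liminf M(S_ε) > 0` for all `ε > 0` if and only if `limsup M(S_ε) > 0` for all `ε > 0`, if and only if `f` is a target of the
universality theorem. Unconditional, and the weight is taken on the critical line itself.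
-/

open Complex Filter Set MeasureTheory Topology

namespace Pool.Agent.Results.MP_07318d_nt.ValuesRightOfTheLine

noncomputable section

/-- `e(x) = exp(2πix)`. -/
def e (x : ℝ) : ℂ := Complex.exp (2 * Real.pi * Complex.I * x)

/-- The `2k`-th power `|1 - e(x) / √p|^(-2k)` of the Euler factor at `p`. -/
def factor (k : ℝ) (p : ℕ) (x : ℝ) : ℝ := ‖1 - e x / (Real.sqrt p : ℂ)‖ ^ (-(2 * k))

/-- The probability measure on `[0, 1]` whose density is proportional to `|1 - e(x) / √p|^(-2k)`. -/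
def phaseLaw (k : ℝ) (p : ℕ) : Measure ℝ :=
  (volume.restrict (Set.Icc (0:ℝ) 1)).withDensity
    fun x => ENNReal.ofReal (factor k p x / ∫ y in Set.Icc (0:ℝ) 1, factor k p y)

/-- The law of the family `(X_p)_p = (e(θ_p))_p`, where the `θ_p` are independent with laws `phaseLaw k p`. -/
def nu (k : ℝ) : Measure (Nat.Primes → ℂ) :=
  (Measure.infinitePi fun p : Nat.Primes => phaseLaw k p).map fun θ p => e (θ p)

/-- The Euler product `∏_{p ≤ z} (1 - p^(-w) X̄_p)^(-1)`; for `X_p = p^(it)` this is the Euler product of `ζ(w + it)` over `p ≤ z`. -/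
def euler (z : ℕ) (X : Nat.Primes → ℂ) (w : ℂ) : ℂ :=
  ∏ p ∈ (Finset.Icc 1 z).subtype Nat.Prime, (1 - (starRingEnd ℂ) (X p) * ((p : ℕ) : ℂ) ^ (-w))⁻¹

/-- `g` is uniformly on `K` at distance less than `ε` from a member of `A`. -/
def Near (K : Set ℂ) (A : Set (ℂ → ℂ)) (ε : ℝ) (g : ℂ → ℂ) : Prop := ∃ f ∈ A, ∃ η < ε, ∀ z ∈ K, ‖g z - f z‖ ≤ η

/-- The real `t` for which `z ↦ ζ(z + it)` is uniformly on `K` at distance less than `ε` from a member of `A`. -/
def S (ε : ℝ) (K : Set ℂ) (A : Set (ℂ → ℂ)) : Set ℝ := {t : ℝ | Near K A ε fun z => riemannZeta (z + t * I)}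

/-- The normalised moment on the critical line over the part in `P` of `[0, T]`:
`(log T)^(-k²) (1/T) ∫_{[0, T] ∩ P} |ζ(1/2 + it)|^(2k) dt`. -/
def M (k : ℝ) (P : Set ℝ) (T : ℝ) : ℝ :=
  (Real.log T ^ (k ^ 2))⁻¹ / T * ∫ t in Icc 0 T ∩ P, ‖riemannZeta (1 / 2 + t * I)‖ ^ (2 * k)

/-- The hull of `K`: the union of `K` and of the bounded components of its complement. -/
def hull (K : Set ℂ) : Set ℂ :=
  K ∪ {z | z ∉ K ∧ Bornology.IsBounded (connectedComponentIn Kᶜ z)}

/-- `g` is continuous on `L`, holomorphic in the interior of `L`, and on each component of the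
interior of `L` either free of zeros or identically zero. -/
structure Good (L : Set ℂ) (g : ℂ → ℂ) : Prop where
  cont : ContinuousOn g L
  hol : DifferentiableOn ℂ g (interior L)
  comp : ∀ z ∈ interior L, (∀ w ∈ connectedComponentIn (interior L) z, g w ≠ 0) ∨
    (∀ w ∈ connectedComponentIn (interior L) z, g w = 0)

/-- `f` extends from `K` to a good function on the hull of `K`. -/
def IsTarget (K : Set ℂ) (f : ℂ → ℂ) : Prop := ∃ g : ℂ → ℂ, (∀ z ∈ K, g z = f z) ∧ Good (hull K) g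

lemma isTarget_iff (K : Set ℂ) (f : ℂ → ℂ) : IsTarget K f ↔ Pool.Agent.Y834.UT.Tgt K f := by
  constructor
  · rintro ⟨g, h1, h2, h3, h4⟩
    exact ⟨g, h1, h2, h3, h4⟩
  · rintro ⟨g, h1, h2, h3, h4⟩
    exact ⟨g, h1, h2, h3, h4⟩

lemma isTarget_of_connected {K : Set ℂ} (hK : IsCompact K) (hKc : IsConnected Kᶜ) (f : ℂ → ℂ) :
    IsTarget K f ↔ Good K f := by
  have hh : hull K = K := Pool.Agent.Y834.UT.hull_eq hK hKc
  constructor
  · rintro ⟨g, h1, h2⟩
    rw [hh] at h2
    have h1' : ∀ z ∈ interior K, f z = g z := fun z hz => (h1 z (interior_subset hz)).symm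
    refine ⟨h2.cont.congr fun z hz => (h1 z hz).symm, h2.hol.congr h1', fun z hz => ?_⟩
    have hsub : connectedComponentIn (interior K) z ⊆ interior K := connectedComponentIn_subset _ _
    rcases h2.comp z hz with h | h
    · exact Or.inl fun w hw => by
        rw [h1' w (hsub hw)]
        exact h w hw
    · exact Or.inr fun w hw => by
        rw [h1' w (hsub hw)]
        exact h w hw
  · intro h
    refine ⟨f, fun _ _ => rfl, ?_⟩
    rw [hh]
    exact h

lemma M_eq (k : ℝ) (ε : ℝ) (K : Set ℂ) (A : Set (ℂ → ℂ)) :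
    M k (S ε K A) = Pool.Agent.H469.F4.Mo k {t | Pool.Agent.X107.MU.Zt K A ε t} := rfl

/-- **Zeta right of the line under the moment measures on the critical line.** -/
theorem result : ∃ c C : ℝ, 0 < c ∧ 0 < C ∧ ∀ k : ℝ, 0 < k → k < 2 → IsProbabilityMeasure (nu k) ∧
    ∀ K : Set ℂ, IsCompact K → (∀ z ∈ K, 1 / 2 < z.re ∧ z.re < 1) →
      -- the law of the values right of the line
      (∀ (A : Set (ℂ → ℂ)) (δ ε η : ℝ), δ < ε → 0 < η → ∃ z₀ : ℕ, ∀ z ≥ z₀, ∀ᶠ T : ℝ in atTop,
        c * (nu k).real {X | Near K A δ (euler z X)} - η ≤ M k (S ε K A) T ∧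
        M k (S δ K A) T ≤ C * (nu k).real {X | Near K A ε (euler z X)} + η) ∧
      -- universality
      (∀ f : ℂ → ℂ, IsTarget K f → ∀ ε : ℝ, 0 < ε → ∃ κ : ℝ, 0 < κ ∧ ∀ᶠ T : ℝ in atTop, κ ≤ M k (S ε K {f}) T) ∧
      (∀ f : ℂ → ℂ, (∀ ε : ℝ, 0 < ε → ¬ Tendsto (M k (S ε K {f})) atTop (𝓝 0)) → IsTarget K f) ∧
      -- if the complement of `K` is connected, the targets are the good functions on `K`
      (∀ f : ℂ → ℂ, IsConnected Kᶜ → (IsTarget K f ↔ Good K f)) := by
  obtain ⟨c, C, hc, hC, h⟩ := Pool.Agent.H469.F4.law_univ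
  refine ⟨c, C, hc, hC, fun k hk hk2 => ⟨Pool.Agent.H469.F4.nu_prob k, fun K hK hKs => ?_⟩⟩
  obtain ⟨h1, h2, h3⟩ := h k hk hk2 K hK hKs
  refine ⟨fun A δ ε η hδε hη => ?_, fun f hf ε hε => ?_, fun f hf => ?_, fun f hKc => isTarget_of_connected hK hKc f⟩
  · obtain ⟨z₀, hz₀⟩ := h1 A δ ε η hδε hη
    refine ⟨z₀, fun z hz => ?_⟩
    rw [M_eq, M_eq]
    exact hz₀ z hz
  · rw [M_eq]
    exact h2 f ((isTarget_iff K f).1 hf) ε hε
  · refine (isTarget_iff K f).2 (h3 f fun ε hε => ?_)
    rw [← M_eq]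
    exact hf ε hε

end

end Pool.Agent.Results.MP_07318d_nt.ValuesRightOfTheLine
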